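import Pool.Agent.Work.MP_c20ce7_dm.Main2
import Pool.Agent.Work.MP_c20ce7_lab.Defs
import Pool.Agent.Work.MP_c20ce7_dm82.TR2

set_option autoImplicit false
set_option linter.unusedSectionVars false

/-!
# The conormal bundle of the orbit of a multisegment by differentials of minors
-/

open MvPolynomial Matrix

noncomputable section

namespace Pool.DM

section Gen

variable {ι κ : Type} [Fintype ι] [DecidableEq ι]

/-- The generic matrix of degree `1`. -/
def OWN2_gen (e : ι → ℤ) : Matrix ι ι (MvPolynomial (Co e) ℂ) := by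
  classical exact fun a b => if h : e a = e b + 1 then X ⟨(a, b), h⟩ else 0

theorem OWN2_gen_map (e : ι → ℤ) (x : Co e → ℂ) :
    (eval x).mapMatrix (OWN2_gen e) = mat e x := by
  ext a b
  simp only [RingHom.mapMatrix_apply, Matrix.map_apply, OWN2_gen, mat]
  split_ifs with h
  · exact eval_X _
  · exact map_zero _

theorem OWN2_pow_map (e : ι → ℤ) (x : Co e → ℂ) (n : ℕ) (a b : ι) :
    eval x ((OWN2_gen e ^ n) a b) = (mat e x ^ n) a b := by
  have h := map_pow (eval x).mapMatrix (OWN2_gen e) n
  rw [OWN2_gen_map] at h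
  exact congrArg (fun m => m a b) h

theorem OWN2_pderiv_gen (e : ι → ℤ) (c : Co e) (a b : ι) :
    pderiv c (OWN2_gen e a b) = if a = c.1.1 ∧ b = c.1.2 then 1 else 0 := by
  simp only [OWN2_gen]
  split_ifs with h h1 h1
  · rw [pderiv_X]
    have h2 : (⟨(a, b), h⟩ : Co e) = c := Subtype.ext (Prod.ext h1.1 h1.2)
    rw [h2, Pi.single_eq_same]
  · rw [pderiv_X, Pi.single_eq_of_ne]
    rintro rfl
    exact h1 ⟨rfl, rfl⟩
  · exact absurd (h1.1 ▸ h1.2 ▸ c.2) h
  · exact map_zero _

theorem OWN2_pderiv_pow (e : ι → ℤ) (x : Co e → ℂ) (c : Co e) (n : ℕ) (a b : ι) :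
    eval x (pderiv c ((OWN2_gen e ^ n) a b)) =
      ∑ j ∈ Finset.range n, (mat e x ^ (n - 1 - j)) a c.1.1 * (mat e x ^ j) c.1.2 b := by
  induction n generalizing a b with
  | zero =>
    rw [pow_zero, Finset.sum_range_zero, Matrix.one_apply]
    split_ifs <;> simp
  | succ n ih =>
    rw [pow_succ', Matrix.mul_apply, map_sum, map_sum]
    have h1 : ∀ k, eval x (pderiv c (OWN2_gen e a k * (OWN2_gen e ^ n) k b)) =
        mat e x a k * (∑ j ∈ Finset.range n, (mat e x ^ (n - 1 - j)) k c.1.1 * (mat e x ^ j) c.1.2 b) +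
        (if a = c.1.1 ∧ k = c.1.2 then (mat e x ^ n) k b else 0) := by
      intro k
      rw [Derivation.leibniz, map_add, smul_eq_mul, smul_eq_mul, map_mul, map_mul, ih,
        OWN2_pow_map, OWN2_pderiv_gen]
      have h2 := congrArg (fun m => m a k) (OWN2_gen_map e x)
      simp only [RingHom.mapMatrix_apply, Matrix.map_apply] at h2
      rw [h2]
      congr 1
      split_ifs <;> simp
    rw [Finset.sum_congr rfl fun k _ => h1 k, Finset.sum_add_distrib, Finset.sum_range_succ]
    congr 1
    · simp only [Finset.mul_sum]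
      rw [Finset.sum_comm]
      refine Finset.sum_congr rfl fun j hj => ?_
      have hj' := Finset.mem_range.1 hj
      have h3 : n + 1 - 1 - j = (n - 1 - j) + 1 := by omega
      rw [h3, pow_succ', Matrix.mul_apply, Finset.sum_mul]
      exact Finset.sum_congr rfl fun k _ => by ring
    · have h4 : n + 1 - 1 - n = 0 := by omega
      rw [h4, pow_zero, Matrix.one_apply]
      by_cases ha : a = c.1.1
      · simp [ha]
      · simp [ha]

/-- Powers of the box matrix. -/
theorem OWN2_spow {e : ι → ℤ} {N : κ → Seg} {sg : ι → κ} (hb : Boxing e N sg) (n : ℕ) (a b : ι) :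
    (smat e sg ^ n) a b = by classical exact if sg a = sg b ∧ e a = e b + n then (1 : ℂ) else 0 := by
  classical
  induction n generalizing a b with
  | zero =>
    rw [pow_zero, Matrix.one_apply]
    by_cases h : a = b
    · subst h
      simp
    · rw [if_neg h, if_neg]
      rintro ⟨h1, h2⟩
      exact h (hb.inj a b h1 (by simpa using h2))
  | succ n ih =>
    rw [pow_succ', Matrix.mul_apply]
    simp only [ih, smat]
    by_cases h : sg a = sg b ∧ e a = e b + (n + 1 : ℕ)
    · rw [if_pos h]
      obtain ⟨k, hk1, hk2⟩ := hb.ex (sg b) (e b + n) (by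
        have := (hb.mem b).1
        omega) (by
        have h1 := (hb.mem a).2
        rw [h.1] at h1
        have h2 := h.2
        push_cast at h2
        omega)
      rw [Finset.sum_eq_single k]
      · rw [if_pos, if_pos ⟨hk1, hk2⟩, mul_one]
        refine ⟨h.1.trans hk1.symm, ?_⟩
        have h2 := h.2
        push_cast at h2
        omega
      · intro k' _ hk'
        by_cases h3 : sg k' = sg b ∧ e k' = e b + n
        · exact absurd (hb.inj k' k (h3.1.trans hk1.symm) (h3.2.trans hk2.symm)) hk'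
        · rw [if_neg h3, mul_zero]
      · intro hk
        exact absurd (Finset.mem_univ k) hk
    · rw [if_neg h]
      refine Finset.sum_eq_zero fun k _ => ?_
      by_cases h1 : sg a = sg k ∧ e a = e k + 1
      · rw [if_pos h1, one_mul, if_neg]
        rintro ⟨h2, h3⟩
        refine h ⟨h1.1.trans h2, ?_⟩
        push_cast
        omega
      · rw [if_neg h1, zero_mul]

end Gen

section Det

/-- The differential of a determinant at a matrix with the entries `1, …, 1, 0` on the diagonal. -/
theorem OWN2_det {σ U : Type} [Fintype U] [DecidableEq U]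
    (A : Matrix (Option U) (Option U) (MvPolynomial σ ℂ)) (x : σ → ℂ) (c : σ)
    (h1 : ∀ u v, eval x (A (some u) (some v)) = if u = v then 1 else 0)
    (h2 : ∀ p, eval x (A p none) = 0) (h3 : ∀ u, eval x (A none (some u)) = 0) :
    eval x (pderiv c A.det) = eval x (pderiv c (A none none)) := by
  rw [Matrix.det_apply', map_sum, map_sum, Finset.sum_eq_single 1]
  · rw [Fintype.prod_option, Derivation.leibniz, Derivation.leibniz]
    simp only [Units.val_one, Int.cast_one, Equiv.Perm.one_apply, map_one,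
      smul_eq_mul, map_add, map_mul, map_prod, h1, h2, if_true, Finset.prod_const_one]
    simp
  · intro τ _ hτ
    rw [Fintype.prod_option, Derivation.leibniz, Derivation.leibniz]
    have h4 : ∏ u, eval x (A (τ (some u)) (some u)) = 0 := by
      by_contra h5
      rw [← ne_eq, Finset.prod_ne_zero_iff] at h5
      refine hτ (Equiv.ext fun q => ?_)
      have h6 : ∀ u, τ (some u) = some u := by
        intro u
        have h7 := h5 u (Finset.mem_univ u)
        rcases hv : τ (some u) with _ | v
        · rw [hv, h3] at h7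
          exact absurd rfl h7
        · rw [hv, h1] at h7
          by_cases h8 : v = u
          · rw [h8]
          · rw [if_neg h8] at h7
            exact absurd rfl h7
      rcases q with _ | u
      · rcases hv : τ none with _ | v
        · rfl
        · have h9 := τ.injective (hv.trans (h6 v).symm)
          exact absurd h9 (by simp)
      · exact h6 u
    have h10 : pderiv c ((((Equiv.Perm.sign τ : ℤˣ) : ℤ) : MvPolynomial σ ℂ)) = 0 :=
      Derivation.map_intCast _ _
    rw [h10]
    simp only [smul_eq_mul, map_add, map_mul, map_prod, h2, h4]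
    simp
  · intro h
    exact absurd (Finset.mem_univ _) h

end Det

section Minor

variable {ι κ : Type} [Fintype ι] [DecidableEq ι]

/-- The starts of the segments which contain the degrees `i` and `i + n`. -/
def OWN2_U (e : ι → ℤ) (sg : ι → κ) (i : ℤ) (n : ℕ) : Type :=
  {u : ι // e u = i ∧ ∃ v, sg v = sg u ∧ e v = e u + n}

instance (e : ι → ℤ) (sg : ι → κ) (i : ℤ) (n : ℕ) : Fintype (OWN2_U e sg i n) := by
  classical exact inferInstanceAs (Fintype {u : ι // e u = i ∧ ∃ v, sg v = sg u ∧ e v = e u + n})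

instance (e : ι → ℤ) (sg : ι → κ) (i : ℤ) (n : ℕ) : DecidableEq (OWN2_U e sg i n) :=
  inferInstanceAs (DecidableEq {u : ι // e u = i ∧ ∃ v, sg v = sg u ∧ e v = e u + n})

/-- The end. -/
def OWN2_up {e : ι → ℤ} {sg : ι → κ} {i : ℤ} {n : ℕ} (u : OWN2_U e sg i n) : ι := u.2.2.choose

theorem OWN2_up_sg {e : ι → ℤ} {sg : ι → κ} {i : ℤ} {n : ℕ} (u : OWN2_U e sg i n) :
    sg (OWN2_up u) = sg u.1 := u.2.2.choose_spec.1

theorem OWN2_up_e {e : ι → ℤ} {sg : ι → κ} {i : ℤ} {n : ℕ} (u : OWN2_U e sg i n) :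
    e (OWN2_up u) = e u.1 + n := u.2.2.choose_spec.2

/-- The rows of the minor. -/
def OWN2_row {e : ι → ℤ} {sg : ι → κ} {i : ℤ} {n : ℕ} (β : ι) : Option (OWN2_U e sg i n) → ι
  | none => β
  | some u => OWN2_up u

/-- The columns of the minor. -/
def OWN2_col {e : ι → ℤ} {sg : ι → κ} {i : ℤ} {n : ℕ} (α : ι) : Option (OWN2_U e sg i n) → ι
  | none => α
  | some u => u.1

/-- The minor. -/
def OWN2_F (e : ι → ℤ) (sg : ι → κ) (n : ℕ) (α β : ι) : MvPolynomial (Co e) ℂ :=
  Matrix.det fun p q : Option (OWN2_U e sg (e α) n) =>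
    (OWN2_gen e ^ n) (OWN2_row β p) (OWN2_col α q)

/-- The number of the segments which contain `i` and `i + n` does not depend on the boxing. -/
theorem OWN2_card {e : ι → ℤ} {N : κ → Seg} {sg sg' : ι → κ} (hb : Boxing e N sg)
    (hb' : Boxing e N sg') (i : ℤ) (n : ℕ) :
    Fintype.card (OWN2_U e sg' i n) ≤ Fintype.card (OWN2_U e sg i n) := by
  have h : ∀ u : OWN2_U e sg' i n, ∃ v : OWN2_U e sg i n, sg v.1 = sg' u.1 := by
    intro u
    have h1 := (hb'.mem u.1)
    obtain ⟨w, hw1, hw2⟩ := u.2.2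
    have h2 := (hb'.mem w)
    rw [hw1, hw2] at h2
    obtain ⟨v, hv1, hv2⟩ := hb.ex (sg' u.1) (e u.1) h1.1 h1.2
    obtain ⟨v', hv'1, hv'2⟩ := hb.ex (sg' u.1) (e u.1 + n) h2.1 h2.2
    exact ⟨⟨v, hv2.trans u.2.1, v', hv'1.trans hv1.symm, by rw [hv'2, hv2]⟩, hv1⟩
  choose f hf using h
  refine Fintype.card_le_of_injective f fun u v huv => ?_
  have h1 : sg' u.1 = sg' v.1 := by rw [← hf u, ← hf v, huv]
  exact Subtype.ext (hb'.inj _ _ h1 (u.2.1.trans v.2.1.symm))

theorem OWN2_F_zero {e : ι → ℤ} {N : κ → Seg} {sg : ι → κ} (hb : Boxing e N sg) (n : ℕ)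
    (α β : ι) (z : Co e → ℂ) (hz : z ∈ orbN e N) :
    eval z (OWN2_F e sg n α β) = 0 := by
  classical
  obtain ⟨sg', hb', g, h, hg, hh, hgh, hhg, hm⟩ := hz
  have hpow : ∀ m : ℕ, mat e z ^ m = g * smat e sg' ^ m * h := by
    intro m
    induction m with
    | zero => rw [pow_zero, pow_zero, mul_one, hgh]
    | succ m ih =>
      rw [pow_succ, ih, hm, pow_succ]
      calc g * smat e sg' ^ m * h * (g * smat e sg' * h)
          = g * smat e sg' ^ m * (h * g) * (smat e sg' * h) := by simp only [mul_assoc]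
        _ = g * (smat e sg' ^ m * smat e sg') * h := by rw [hhg, mul_one]; simp only [mul_assoc]
  set A : Matrix (Option (OWN2_U e sg (e α) n)) (Option (OWN2_U e sg (e α) n)) ℂ := fun p q =>
    (mat e z ^ n) (OWN2_row β p) (OWN2_col α q) with hA
  have h1 : eval z (OWN2_F e sg n α β) = A.det := by
    unfold OWN2_F
    rw [RingHom.map_det]
    congr 1
    ext p q
    rw [RingHom.mapMatrix_apply, Matrix.map_apply, OWN2_pow_map]
  rw [h1]
  set B : Matrix (Option (OWN2_U e sg (e α) n)) (OWN2_U e sg' (e α) n) ℂ := fun p u =>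
    g (OWN2_row β p) (OWN2_up u) with hB
  set D : Matrix (OWN2_U e sg' (e α) n) (Option (OWN2_U e sg (e α) n)) ℂ := fun u q =>
    h u.1 (OWN2_col α q) with hD
  have hAB : A = B * D := by
    ext p q
    rw [hA]
    simp only
    rw [hpow, Matrix.mul_apply, Matrix.mul_apply]
    have hcol : e (OWN2_col α q) = e α := by
      rcases q with _ | u
      · rfl
      · exact u.2.1
    have h2 : ∀ a : ι, (g * smat e sg' ^ n) (OWN2_row β p) a * h a (OWN2_col α q) =
        if hu : e a = e α ∧ ∃ v, sg' v = sg' a ∧ e v = e a + n then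
          B p ⟨a, hu⟩ * D ⟨a, hu⟩ q else 0 := by
      intro a
      split_ifs with hu
      · rw [Matrix.mul_apply, Finset.sum_eq_single (OWN2_up (⟨a, hu⟩ : OWN2_U e sg' (e α) n))]
        · rw [OWN2_spow hb', if_pos, mul_one]
          exact ⟨OWN2_up_sg (⟨a, hu⟩ : OWN2_U e sg' (e α) n),
            OWN2_up_e (⟨a, hu⟩ : OWN2_U e sg' (e α) n)⟩
        · intro b _ hbne
          rw [OWN2_spow hb', if_neg, mul_zero]
          rintro ⟨h3, h4⟩
          refine hbne (hb'.inj _ _ (h3.trans (OWN2_up_sg (⟨a, hu⟩ : OWN2_U e sg' (e α) n)).symm)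
            (h4.trans (OWN2_up_e (⟨a, hu⟩ : OWN2_U e sg' (e α) n)).symm))
        · intro hne
          exact absurd (Finset.mem_univ _) hne
      · by_cases h5 : h a (OWN2_col α q) = 0
        · rw [h5, mul_zero]
        · have h6 := hh _ _ h5
          rw [hcol, add_zero] at h6
          rw [Matrix.mul_apply, Finset.sum_eq_zero, zero_mul]
          intro b _
          rw [OWN2_spow hb', if_neg, mul_zero]
          rintro ⟨h3, h4⟩
          exact hu ⟨h6, b, h3, h4⟩
    rw [Finset.sum_congr rfl fun a _ => h2 a, Finset.sum_dite, Finset.sum_const_zero, add_zero]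
    refine Finset.sum_bij' (fun a _ => (⟨a.1, (Finset.mem_filter.1 a.2).2⟩ : OWN2_U e sg' (e α) n))
      (fun u _ => ⟨u.1, Finset.mem_filter.2 ⟨Finset.mem_univ _, u.2⟩⟩) ?_ ?_ ?_ ?_ ?_
    · intro a _
      exact Finset.mem_univ _
    · intro u _
      exact Finset.mem_attach _ _
    · intro a _
      rfl
    · intro u _
      rfl
    · intro a _
      rfl
  by_contra hdet
  have h7 : A.rank = Fintype.card (Option (OWN2_U e sg (e α) n)) :=
    Matrix.rank_of_isUnit A ((Matrix.isUnit_iff_isUnit_det A).2 (isUnit_iff_ne_zero.2 hdet))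
  have h8 : A.rank ≤ Fintype.card (OWN2_U e sg' (e α) n) := by
    rw [hAB]
    exact (Matrix.rank_mul_le_left B D).trans (Matrix.rank_le_card_width B)
  have h9 := OWN2_card hb hb' (e α) n
  rw [Fintype.card_option] at h7
  omega

open Classical in
/-- The differential of the minor at the box matrix. -/
theorem OWN2_F_deriv {e : ι → ℤ} {N : κ → Seg} {sg : ι → κ} (hb : Boxing e N sg) (n : ℕ)
    (α β : ι) (hn : e β = e α + n)
    (hα : ∀ v, sg v = sg α → e v = e β → False) (hβ : ∀ v, sg v = sg β → e v = e α → False)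
    (x : Co e → ℂ) (hx : mat e x = smat e sg) (c : Co e) :
    eval x (pderiv c (OWN2_F e sg n α β)) =
      if sg c.1.1 = sg β ∧ sg c.1.2 = sg α ∧ e α ≤ e c.1.2 ∧ e c.1.1 ≤ e β then (1 : ℂ) else 0 := by
  unfold OWN2_F
  rw [OWN2_det]
  · simp only [OWN2_row, OWN2_col]
    rw [OWN2_pderiv_pow, hx]
    simp only [OWN2_spow hb]
    by_cases h : sg c.1.1 = sg β ∧ sg c.1.2 = sg α ∧ e α ≤ e c.1.2 ∧ e c.1.1 ≤ e β
    · rw [if_pos h]
      obtain ⟨h1, h2, h3, h4⟩ := h
      have h5 := c.2
      rw [Finset.sum_eq_single (e c.1.2 - e α).toNat]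
      · rw [if_pos, if_pos, mul_one]
        · exact ⟨h2, by omega⟩
        · exact ⟨h1.symm, by omega⟩
      · intro j hj hne
        by_cases h6 : sg c.1.2 = sg α ∧ e c.1.2 = e α + j
        · exfalso
          have := h6.2
          omega
        · rw [if_neg h6, mul_zero]
      · intro hne
        exfalso
        apply hne
        rw [Finset.mem_range]
        omega
    · rw [if_neg h]
      refine Finset.sum_eq_zero fun j hj => ?_
      have hj' := Finset.mem_range.1 hj
      by_cases h6 : sg c.1.2 = sg α ∧ e c.1.2 = e α + j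
      · by_cases h7 : sg β = sg c.1.1 ∧ e β = e c.1.1 + (n - 1 - j : ℕ)
        · exfalso
          refine h ⟨h7.1.symm, h6.1, ?_, ?_⟩
          · have := h6.2
            omega
          · have := h7.2
            omega
        · rw [if_neg h7, zero_mul]
      · rw [if_neg h6, mul_zero]
  · intro u v
    simp only [OWN2_row, OWN2_col]
    rw [OWN2_pow_map, hx, OWN2_spow hb]
    by_cases h : u = v
    · subst h
      rw [if_pos rfl, if_pos]
      exact ⟨OWN2_up_sg u, OWN2_up_e u⟩
    · rw [if_neg h, if_neg]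
      rintro ⟨h1, -⟩
      exact h (Subtype.ext (hb.inj _ _ ((OWN2_up_sg u).symm.trans h1) (u.2.1.trans v.2.1.symm)))
  · intro p
    rcases p with _ | u
    · simp only [OWN2_row, OWN2_col]
      rw [OWN2_pow_map, hx, OWN2_spow hb, if_neg]
      rintro ⟨h1, -⟩
      exact hα β h1 rfl
    · simp only [OWN2_row, OWN2_col]
      rw [OWN2_pow_map, hx, OWN2_spow hb, if_neg]
      rintro ⟨h1, h2⟩
      exact hα _ h1 (by rw [h2, hn])
  · intro u
    simp only [OWN2_row, OWN2_col]
    rw [OWN2_pow_map, hx, OWN2_spow hb, if_neg]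
    rintro ⟨h1, -⟩
    exact hβ u.1 h1.symm u.2.1

end Minor

section Conormal

variable {ι κ : Type} [Fintype ι] [DecidableEq ι]

open Classical in
/-- The entries of `y` between the segments `t` and `s`. -/
def OWN2_Y (e : ι → ℤ) (sg : ι → κ) (y : Matrix ι ι ℂ) (t s : κ) (p : ℤ) : ℂ :=
  ∑ b, ∑ a, if sg b = t ∧ e b + 1 = p ∧ sg a = s ∧ e a = p then y b a else 0

theorem OWN2_Y_eq {e : ι → ℤ} {N : κ → Seg} {sg : ι → κ} (hb : Boxing e N sg) (y : Matrix ι ι ℂ)
    (a b : ι) (h : e a = e b + 1) : OWN2_Y e sg y (sg b) (sg a) (e a) = y b a := by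
  classical
  unfold OWN2_Y
  rw [Finset.sum_eq_single b, Finset.sum_eq_single a, if_pos ⟨rfl, h.symm, rfl, rfl⟩]
  · intro a' _ ha'
    rw [if_neg]
    rintro ⟨-, -, h1, h2⟩
    exact ha' (hb.inj _ _ h1 h2)
  · intro hne
    exact absurd (Finset.mem_univ _) hne
  · intro b' _ hb'
    refine Finset.sum_eq_zero fun a' _ => ?_
    rw [if_neg]
    rintro ⟨h1, h2, -, -⟩
    exact hb' (hb.inj _ _ h1 (by omega))
  · intro hne
    exact absurd (Finset.mem_univ _) hne

theorem OWN2_Y_ne {e : ι → ℤ} {sg : ι → κ} {y : Matrix ι ι ℂ} {t s : κ} {p : ℤ}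
    (h : OWN2_Y e sg y t s p ≠ 0) :
    (∃ b, sg b = t ∧ e b + 1 = p) ∧ ∃ a, sg a = s ∧ e a = p := by
  classical
  unfold OWN2_Y at h
  obtain ⟨b, -, h1⟩ := Finset.exists_ne_zero_of_sum_ne_zero h
  obtain ⟨a, -, h2⟩ := Finset.exists_ne_zero_of_sum_ne_zero h1
  by_cases h3 : sg b = t ∧ e b + 1 = p ∧ sg a = s ∧ e a = p
  · exact ⟨⟨b, h3.1, h3.2.1⟩, a, h3.2.2⟩
  · rw [if_neg h3] at h2
    exact absurd rfl h2

theorem OWN2_Y_step {e : ι → ℤ} {N : κ → Seg} {sg : ι → κ} (hb : Boxing e N sg) (y : Matrix ι ι ℂ)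
    (hc : smat e sg * y = y * smat e sg)
    (a b : ι) (hab : e a = e b) :
    OWN2_Y e sg y (sg b) (sg a) (e a) = OWN2_Y e sg y (sg b) (sg a) (e a + 1) := by
  classical
  have h := congrArg (fun m => m b a) hc
  simp only [Matrix.mul_apply, smat] at h
  have h1 : OWN2_Y e sg y (sg b) (sg a) (e a) =
      ∑ k, (if sg b = sg k ∧ e b = e k + 1 then (1 : ℂ) else 0) * y k a := by
    unfold OWN2_Y
    refine Finset.sum_congr rfl fun k _ => ?_
    by_cases h2 : sg b = sg k ∧ e b = e k + 1
    · rw [if_pos h2, one_mul, Finset.sum_eq_single a, if_pos]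
      · exact ⟨h2.1.symm, by omega, rfl, rfl⟩
      · intro a' _ ha'
        rw [if_neg]
        rintro ⟨-, -, h3, h4⟩
        exact ha' (hb.inj _ _ h3 h4)
      · intro hne
        exact absurd (Finset.mem_univ _) hne
    · rw [if_neg h2, zero_mul]
      refine Finset.sum_eq_zero fun a' _ => ?_
      rw [if_neg]
      rintro ⟨h3, h4, -, -⟩
      exact h2 ⟨h3.symm, by omega⟩
  have h5 : OWN2_Y e sg y (sg b) (sg a) (e a + 1) =
      ∑ k, y b k * (if sg k = sg a ∧ e k = e a + 1 then (1 : ℂ) else 0) := by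
    unfold OWN2_Y
    rw [Finset.sum_eq_single b]
    · refine Finset.sum_congr rfl fun k _ => ?_
      by_cases h2 : sg k = sg a ∧ e k = e a + 1
      · rw [if_pos h2, mul_one, if_pos]
        exact ⟨rfl, by omega, h2.1, h2.2⟩
      · rw [if_neg h2, mul_zero, if_neg]
        rintro ⟨-, -, h3, h4⟩
        exact h2 ⟨h3, h4⟩
    · intro b' _ hb'
      refine Finset.sum_eq_zero fun a' _ => ?_
      rw [if_neg]
      rintro ⟨h3, h4, -, -⟩
      exact hb' (hb.inj _ _ h3 (by omega))
    · intro hne
      exact absurd (Finset.mem_univ _) hne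
  rw [h1, h5, h]

open Classical in
/-- The value for the pair of boxes `α`, `β`. -/
def OWN2_f (e : ι → ℤ) (N : κ → Seg) (sg : ι → κ) (y : Matrix ι ι ℂ) : MvPolynomial (Co e) ℂ :=
  ∑ α, ∑ β, if e α < e β ∧ (N (sg β)).1 = e α + 1 ∧ (N (sg α)).2 + 1 = e β then
    C (OWN2_Y e sg y (sg α) (sg β) (e α + 1)) * OWN2_F e sg (e β - e α).toNat α β else 0

theorem OWN2_f_zero {e : ι → ℤ} {N : κ → Seg} {sg : ι → κ} (hb : Boxing e N sg)
    (y : Matrix ι ι ℂ) (z : Co e → ℂ) (hz : z ∈ orbN e N) : eval z (OWN2_f e N sg y) = 0 := by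
  classical
  unfold OWN2_f
  rw [map_sum]
  refine Finset.sum_eq_zero fun α _ => ?_
  rw [map_sum]
  refine Finset.sum_eq_zero fun β _ => ?_
  split_ifs
  · rw [map_mul, OWN2_F_zero hb _ _ _ z hz, mul_zero]
  · exact map_zero _

theorem OWN2_f_deriv {e : ι → ℤ} {N : κ → Seg} {sg : ι → κ} (hb : Boxing e N sg)
    (y : Matrix ι ι ℂ) (hy : ∀ a b, y b a ≠ 0 → e a = e b + 1)
    (hc : smat e sg * y = y * smat e sg)
    (x : Co e → ℂ) (hx : mat e x = smat e sg) (c : Co e) :
    eval x (pderiv c (OWN2_f e N sg y)) = y c.1.2 c.1.1 := by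
  classical
  obtain ⟨⟨a, b⟩, hab⟩ := c
  simp only at hab ⊢
  have ha := hb.mem a
  have hbb := hb.mem b
  -- every term
  have h1 : ∀ α β : ι, eval x (pderiv (⟨(a, b), hab⟩ : Co e)
      (if e α < e β ∧ (N (sg β)).1 = e α + 1 ∧ (N (sg α)).2 + 1 = e β then
        C (OWN2_Y e sg y (sg α) (sg β) (e α + 1)) * OWN2_F e sg (e β - e α).toNat α β else 0)) =
      if (e α < e β ∧ (N (sg β)).1 = e α + 1 ∧ (N (sg α)).2 + 1 = e β) ∧ sg a = sg β ∧ sg b = sg α
        then OWN2_Y e sg y (sg b) (sg a) (e α + 1) else 0 := by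
    intro α β
    by_cases h2 : e α < e β ∧ (N (sg β)).1 = e α + 1 ∧ (N (sg α)).2 + 1 = e β
    · rw [if_pos h2, Derivation.leibniz, pderiv_C, smul_zero, add_zero, smul_eq_mul, map_mul,
        eval_C, OWN2_F_deriv hb (e β - e α).toNat α β (by omega) _ _ x hx]
      · by_cases h3 : sg a = sg β ∧ sg b = sg α
        · rw [if_pos, if_pos ⟨h2, h3⟩, mul_one, h3.1, h3.2]
          simp only
          rw [h3.1] at ha
          rw [h3.2] at hbb
          exact ⟨h3.1, h3.2, by omega, by omega⟩
        · split_ifs with h4 h5 h5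
          · exact absurd ⟨h4.1, h4.2.1⟩ h3
          · exact absurd ⟨h4.1, h4.2.1⟩ h3
          · exact absurd h5.2 h3
          · exact mul_zero _
      · intro v hv1 hv2
        have h3 := (hb.mem v).2
        rw [hv1] at h3
        omega
      · intro v hv1 hv2
        have h3 := (hb.mem v).1
        rw [hv1] at h3
        omega
    · rw [if_neg h2, if_neg (fun h4 => h2 h4.1), map_zero, map_zero]
  unfold OWN2_f
  rw [map_sum, map_sum]
  simp only [map_sum, h1]
  -- descending and ascending constancy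
  set Y := OWN2_Y e sg y (sg b) (sg a) with hY
  have hYab : Y (e a) = y b a := OWN2_Y_eq hb y a b hab
  have step : ∀ p : ℤ, (N (sg a)).1 ≤ p → p ≤ (N (sg a)).2 → (N (sg b)).1 ≤ p →
      p ≤ (N (sg b)).2 → Y p = Y (p + 1) := by
    intro p h2 h3 h4 h5
    obtain ⟨a', ha'1, ha'2⟩ := hb.ex (sg a) p h2 h3
    obtain ⟨b', hb'1, hb'2⟩ := hb.ex (sg b) p h4 h5
    have h6 := OWN2_Y_step hb y hc a' b' (by omega)
    rw [ha'1, hb'1, ha'2] at h6
    exact h6
  have hne : ∀ p : ℤ, Y p ≠ 0 → (N (sg b)).1 ≤ p - 1 ∧ p - 1 ≤ (N (sg b)).2 ∧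
      (N (sg a)).1 ≤ p ∧ p ≤ (N (sg a)).2 := by
    intro p hp
    obtain ⟨⟨b', hb'1, hb'2⟩, a', ha'1, ha'2⟩ := OWN2_Y_ne hp
    have h2 := hb.mem b'
    have h3 := hb.mem a'
    rw [hb'1] at h2
    rw [ha'1] at h3
    omega
  by_cases hcase : (N (sg b)).1 < (N (sg a)).1 ∧ (N (sg b)).2 < (N (sg a)).2
  · -- linked
    obtain ⟨α0, hα1, hα2⟩ := hb.ex (sg b) ((N (sg a)).1 - 1) (by omega) (by omega)
    obtain ⟨β0, hβ1, hβ2⟩ := hb.ex (sg a) ((N (sg b)).2 + 1) (by omega) (by omega)
    rw [Finset.sum_eq_single α0, Finset.sum_eq_single β0, if_pos]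
    · -- constancy
      have key : ∀ m : ℕ, (N (sg a)).1 ≤ e a - m → Y (e a - m) = Y (e a) := by
        intro m
        induction m with
        | zero => intro _; simp
        | succ m ih =>
          intro hm
          push_cast at hm ⊢
          rw [← ih (by omega)]
          have h2 := step (e a - (m + 1)) hm (by omega) (by omega) (by omega)
          rw [h2]
          congr 1
          ring
      have h3 := key (e a - (N (sg a)).1).toNat (by omega)
      rw [← hYab, ← h3]
      congr 1
      omega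
    · refine ⟨⟨?_, ?_, ?_⟩, hβ1.symm, hα1.symm⟩
      · omega
      · rw [hβ1]
        omega
      · rw [hα1]
        omega
    · intro β _ hβ
      rw [if_neg]
      rintro ⟨⟨-, -, h3⟩, h4, h5⟩
      refine hβ (hb.inj _ _ (h4.symm.trans hβ1.symm) ?_)
      rw [← h5] at h3
      omega
    · intro hne'
      exact absurd (Finset.mem_univ _) hne'
    · intro α _ hα
      refine Finset.sum_eq_zero fun β _ => ?_
      rw [if_neg]
      rintro ⟨⟨-, h3, -⟩, h4, h5⟩
      refine hα (hb.inj _ _ (h5.symm.trans hα1.symm) ?_)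
      rw [← h4] at h3
      omega
    · intro hne'
      exact absurd (Finset.mem_univ _) hne'
  · rw [Finset.sum_eq_zero]
    · -- the entry is zero
      by_contra h0
      have h00 : Y (e a) ≠ 0 := by
        rw [hYab]
        exact fun h => h0 h.symm
      apply hcase
      constructor
      · have key : ∀ m : ℕ, (N (sg a)).1 ≤ e a - m → Y (e a - m) ≠ 0 := by
          intro m
          induction m with
          | zero => intro _; simpa using h00
          | succ m ih =>
            intro hm
            push_cast at hm ⊢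
            have h2 := ih (by omega)
            have h3 := hne _ h2
            have h4 := step (e a - (m + 1)) hm (by omega) (by omega) (by omega)
            rw [h4]
            have h5 : e a - ((m : ℤ) + 1) + 1 = e a - m := by ring
            rw [h5]
            exact h2
        have h2 := hne _ (key (e a - (N (sg a)).1).toNat (by omega))
        omega
      · have key : ∀ m : ℕ, e a + m ≤ (N (sg b)).2 + 1 → Y (e a + m) ≠ 0 := by
          intro m
          induction m with
          | zero => intro _; simpa using h00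
          | succ m ih =>
            intro hm
            push_cast at hm ⊢
            have h2 := ih (by omega)
            have h3 := hne _ h2
            have h4 := step (e a + m) (by omega) (by omega) (by omega) (by omega)
            have h5 : e a + ((m : ℤ) + 1) = e a + m + 1 := by ring
            rw [h5, ← h4]
            exact h2
        have h2 := hne _ (key ((N (sg b)).2 + 1 - e a).toNat (by omega))
        omega
    · intro α _
      refine Finset.sum_eq_zero fun β _ => ?_
      rw [if_neg]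
      rintro ⟨⟨h2, h3, h4⟩, h5, h6⟩
      apply hcase
      rw [h5, h6]
      have h7 := hb.mem α
      have h8 := hb.mem β
      omega

/-- **OWN2.** The conormal bundle of the orbit of `N` is contained in the characteristic variety of every simple
equivariant module whose support is the closure of this orbit. -/
theorem lab_of_suppEq (hHST : Stmt_HST) (hOWN : Stmt_OWN) (e : ι → ℤ) (N : κ → Seg)
    (L : Type) [AddCommGroup L] [Module ℂ L] (W : WMod (Co e) L) (hS : W.Simple)
    (hE : W.Equivariant) (hsupp : W.SuppEq (orbN e N)) : W.Lab N := by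
  classical
  intro x hx ξ hξ
  obtain ⟨sg, hb, g, h, hg, hh, hgh, hhg, hm⟩ := hx
  have hsm : ∀ a b, smat e sg a b ≠ 0 → e a = e b + 1 := by
    intro a b hab
    unfold smat at hab
    by_contra h1
    rw [if_neg (fun h2 => h1 h2.2)] at hab
    exact hab rfl
  set x0 := ofMat e (smat e sg) with hx0
  have hmx0 : mat e x0 = smat e sg := mat_ofMat e _ hsm
  set y0 := h * ymat e ξ * g with hy0
  have hy : ∀ b a, y0 b a ≠ 0 → e a = e b + 1 := by
    intro b a hba
    rw [hy0, Matrix.mul_apply] at hba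
    obtain ⟨k, -, hk⟩ := Finset.exists_ne_zero_of_sum_ne_zero hba
    have hk1 := left_ne_zero_of_mul hk
    have hk2 := hg _ _ (right_ne_zero_of_mul hk)
    rw [Matrix.mul_apply] at hk1
    obtain ⟨j, -, hj⟩ := Finset.exists_ne_zero_of_sum_ne_zero hk1
    have hj1 := hh _ _ (left_ne_zero_of_mul hj)
    have hj2 := right_ne_zero_of_mul hj
    have hj3 : e k = e j + 1 := by
      by_contra h1
      exact hj2 (ymat_of_not e ξ h1)
    omega
  have hcomm : smat e sg * y0 = y0 * smat e sg := by
    have h1 : smat e sg = h * mat e x * g := by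
      rw [hm]
      calc smat e sg = (h * g) * smat e sg * (h * g) := by rw [hhg, one_mul, mul_one]
        _ = h * (g * smat e sg * h) * g := by simp only [mul_assoc]
    rw [h1, hy0]
    calc h * mat e x * g * (h * ymat e ξ * g) = h * mat e x * (g * h) * ymat e ξ * g := by
          simp only [mul_assoc]
      _ = h * (mat e x * ymat e ξ) * g := by rw [hgh, mul_one]; simp only [mul_assoc]
      _ = h * (ymat e ξ * mat e x) * g := by rw [hξ]
      _ = h * ymat e ξ * (g * h) * mat e x * g := by rw [hgh, mul_one]; simp only [mul_assoc]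
      _ = h * ymat e ξ * g * (h * mat e x * g) := by simp only [mul_assoc]
  have hx0mem : x0 ∈ orbN e N := by
    refine ⟨sg, hb, 1, 1, ?_, ?_, one_mul 1, one_mul 1, ?_⟩
    · intro a b hab
      by_cases h1 : a = b
      · rw [h1, add_zero]
      · exact absurd (Matrix.one_apply_ne h1) hab
    · intro a b hab
      by_cases h1 : a = b
      · rw [h1, add_zero]
      · exact absurd (Matrix.one_apply_ne h1) hab
    · rw [one_mul, mul_one, hmx0]
  have key := hOWN (Co e) L W (orbN e N) hS hsupp (OWN2_f e N sg y0)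
    (fun z hz => OWN2_f_zero hb y0 z hz) x0 hx0mem
  have h2 : (fun c => eval x0 (pderiv c (OWN2_f e N sg y0))) = ofYmat e y0 := by
    funext c
    rw [OWN2_f_deriv hb y0 (fun a b hab => hy b a hab) hcomm x0 hmx0 c]
    rfl
  rw [h2] at key
  refine hHST ι e L W hS hE g h hgh hhg (fun a b hab => by simpa using hg a b hab)
    (fun a b hab => by simpa using hh a b hab) x0 (ofYmat e y0) x ξ key ?_ ?_
  · rw [hmx0, hm]
  · rw [ymat_ofYmat e y0 hy, hy0]
    calc ymat e ξ = (g * h) * ymat e ξ * (g * h) := by rw [hgh, one_mul, mul_one]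
      _ = g * (h * ymat e ξ * g) * h := by simp only [mul_assoc]

end Conormal

end Pool.DM
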